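import Pool.Agent.H820.F3.Stm

set_option autoImplicit false

/-!
# The section of the product
-/

namespace Pool.Agent.H284.F3

open Matrix Complex ComplexConjugate Filter Topology
open scoped Manifold ContDiff MatrixGroups Pointwise
open Pool.Agent.H820.T6 (Z3 C4 M4 X Y nn Vt fw full bw)
open Pool.Agent.H820.F3

noncomputable section

theorem sv0 (a b : Fin 3 → ℂ → ℂ) (z : Z3) : sv a b z 0 = a 0 (z 0) * a 1 (z 1) * a 2 (z 2) := rfl
theorem sv1 (a b : Fin 3 → ℂ → ℂ) (z : Z3) : sv a b z 1 =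
    b 0 (z 0) * a 1 (z 1) * a 2 (z 2) + a 0 (z 0) * b 1 (z 1) * a 2 (z 2) +
      a 0 (z 0) * a 1 (z 1) * b 2 (z 2) := rfl
theorem sv2 (a b : Fin 3 → ℂ → ℂ) (z : Z3) : sv a b z 2 =
    a 0 (z 0) * b 1 (z 1) * b 2 (z 2) + b 0 (z 0) * a 1 (z 1) * b 2 (z 2) +
      b 0 (z 0) * b 1 (z 1) * a 2 (z 2) := rfl
theorem sv3 (a b : Fin 3 → ℂ → ℂ) (z : Z3) : sv a b z 3 = b 0 (z 0) * b 1 (z 1) * b 2 (z 2) := rfl

theorem sv_smooth {D : Set Z3} {a b : Fin 3 → ℂ → ℂ}
    (hA : ∀ i, ContDiffOn ℂ ∞ (fun z : Z3 => a i (z i)) D)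
    (hB : ∀ i, ContDiffOn ℂ ∞ (fun z : Z3 => b i (z i)) D) : ContDiffOn ℂ ∞ (sv a b) D := by
  rw [contDiffOn_pi]
  intro i
  fin_cases i
  · exact ((hA 0).mul (hA 1)).mul (hA 2)
  · exact ((((hB 0).mul (hA 1)).mul (hA 2)).add (((hA 0).mul (hB 1)).mul (hA 2))).add
      (((hA 0).mul (hA 1)).mul (hB 2))
  · exact ((((hA 0).mul (hB 1)).mul (hB 2)).add (((hB 0).mul (hA 1)).mul (hB 2))).add
      (((hB 0).mul (hB 1)).mul (hA 2))
  · exact ((hB 0).mul (hB 1)).mul (hB 2)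

theorem lin_ne {p q : ℂ} (h : p ≠ 0 ∨ q ≠ 0) :
    (Polynomial.C p + Polynomial.C q * Polynomial.X : Polynomial ℂ) ≠ 0 := by
  intro h0
  have h1 : (Polynomial.C p + Polynomial.C q * Polynomial.X : Polynomial ℂ).coeff 0 = 0 := by
    rw [h0, Polynomial.coeff_zero]
  have h2 : (Polynomial.C p + Polynomial.C q * Polynomial.X : Polynomial ℂ).coeff 1 = 0 := by
    rw [h0, Polynomial.coeff_zero]
  simp at h1 h2
  rcases h with h | h
  · exact h h1
  · exact h h2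

theorem sv_ne {a b : Fin 3 → ℂ → ℂ} {z : Z3} (h : ∀ i, a i (z i) ≠ 0 ∨ b i (z i) ≠ 0) :
    sv a b z ≠ 0 := by
  intro h0
  have e0 : sv a b z 0 = 0 := by rw [h0]; rfl
  have e1 : sv a b z 1 = 0 := by rw [h0]; rfl
  have e2 : sv a b z 2 = 0 := by rw [h0]; rfl
  have e3 : sv a b z 3 = 0 := by rw [h0]; rfl
  have hp := mul_ne_zero (mul_ne_zero (lin_ne (h 0)) (lin_ne (h 1))) (lin_ne (h 2))
  apply hp
  have e : (Polynomial.C (a 0 (z 0)) + Polynomial.C (b 0 (z 0)) * Polynomial.X) *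
      (Polynomial.C (a 1 (z 1)) + Polynomial.C (b 1 (z 1)) * Polynomial.X) *
      (Polynomial.C (a 2 (z 2)) + Polynomial.C (b 2 (z 2)) * Polynomial.X) =
      Polynomial.C (sv a b z 0) + Polynomial.C (sv a b z 1) * Polynomial.X +
      Polynomial.C (sv a b z 2) * Polynomial.X ^ 2 +
      Polynomial.C (sv a b z 3) * Polynomial.X ^ 3 := by
    rw [sv0, sv1, sv2, sv3]
    simp only [map_mul, map_add]
    ring
  rw [e, e0, e1, e2, e3]
  simp

theorem chi_mul {C : Cur} {χ : C.G → ℂ → ℂ} {a b : ℂ → ℂ} (hC : IsCur C) (hP : Pair C χ a b)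
    (g h : C.G) {z : ℂ} (hz : z ∈ C.D) : χ (g * h) z = χ g (C.act h z) * χ h z := by
  have ha : χ (g * h) z * a z = χ g (C.act h z) * χ h z * a z := by
    rw [← hP.aper _ z hz, hC.mul g h z hz, hP.aper g _ (hC.maps h z hz), hP.aper h z hz, mul_assoc]
  have hb : χ (g * h) z * b z = χ g (C.act h z) * χ h z * b z := by
    rw [← hP.bper _ z hz, hC.mul g h z hz, hP.bper g _ (hC.maps h z hz), hP.bper h z hz, mul_assoc]
  rcases hP.ne z hz with h0 | h0
  · exact mul_right_cancel₀ h0 ha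
  · exact mul_right_cancel₀ h0 hb

theorem t_sv : S_sv := by
  intro C χ a b hC hP
  have hcomp : ∀ (i : Fin 3) (f : ℂ → ℂ), ContDiffOn ℂ ∞ f (C i).D →
      ContDiffOn ℂ ∞ (fun z : Z3 => f (z i)) (Dm C) := fun i f hf =>
    hf.comp (contDiff_apply ℂ ℂ i).contDiffOn (fun z hz => hz i)
  refine ⟨sv_smooth (fun i => hcomp i _ (hP i).ha) (fun i => hcomp i _ (hP i).hb),
    fun z hz => sv_ne fun i => (hP i).ne _ (hz i), ?_, ?_, ?_, ?_⟩
  · intro g
    have h1 : ch C χ g = fun z => χ 0 (g 0) (z 0) * χ 1 (g 1) (z 1) * χ 2 (g 2) (z 2) := by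
      funext z
      exact Fin.prod_univ_three _
    rw [h1]
    exact ((hcomp 0 _ ((hP 0).hχ _)).mul (hcomp 1 _ ((hP 1).hχ _))).mul (hcomp 2 _ ((hP 2).hχ _))
  · intro g z hz
    exact Finset.prod_ne_zero_iff.2 fun i _ => (hP i).χne _ _ (hz i)
  · intro g h z hz
    unfold ch
    rw [← Finset.prod_mul_distrib]
    exact Finset.prod_congr rfl fun i _ => chi_mul (hC i) (hP i) _ _ (hz i)
  · intro g z hz
    have hch : ch C χ g z = χ 0 (g 0) (z 0) * χ 1 (g 1) (z 1) * χ 2 (g 2) (z 2) :=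
      Fin.prod_univ_three _
    have ha : ∀ i, a i (actm C g z i) = χ i (g i) (z i) * a i (z i) :=
      fun i => (hP i).aper _ _ (hz i)
    have hb : ∀ i, b i (actm C g z i) = χ i (g i) (z i) * b i (z i) :=
      fun i => (hP i).bper _ _ (hz i)
    have e0 : sv a b (actm C g z) 0 = ch C χ g z * sv a b z 0 := by
      rw [sv0, sv0, hch, ha, ha, ha]
      ring
    have e1 : sv a b (actm C g z) 1 = ch C χ g z * sv a b z 1 := by
      rw [sv1, sv1, hch, ha, ha, ha, hb, hb, hb]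
      ring
    have e2 : sv a b (actm C g z) 2 = ch C χ g z * sv a b z 2 := by
      rw [sv2, sv2, hch, ha, ha, ha, hb, hb, hb]
      ring
    have e3 : sv a b (actm C g z) 3 = ch C χ g z * sv a b z 3 := by
      rw [sv3, sv3, hch, hb, hb, hb]
      ring
    funext j
    show _ = ch C χ g z * sv a b z j
    fin_cases j
    · exact e0
    · exact e1
    · exact e2
    · exact e3

end

end Pool.Agent.H284.F3
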